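import Pool.Agent.Q248.EH.Signed3

/-!
# The largest `3`-fold signed zero-sum-free sets in `ℤ_p`

For every prime `p` the largest size of a set `A ⊆ ℤ_p` with `± a ± b ± c ≠ 0` for all pairwise
distinct `a, b, c ∈ A` is `⌊p / 3⌋ + 1`, except that it is `2` for `p = 2` and `3` for `p = 5`.
-/

namespace Pool.Agent.Results.MP_6ea067_co.TauThree

open Finset Pool.Agent.Q248.EH

/-- The restricted signed `h`-fold sumset of `A ⊆ ℤ_n`: all `∑ ε_b b` over the `h`-element subsets
`B` of `A` and all choices of signs `ε_b ∈ {1, -1}`. -/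
def rsigned {n : ℕ} (h : ℕ) (A : Finset (ZMod n)) : Set (ZMod n) :=
  {x | ∃ B ⊆ A, B.card = h ∧ ∃ ε : ZMod n → ℤ, (∀ b ∈ B, ε b = 1 ∨ ε b = -1) ∧
    x = ∑ b ∈ B, ε b • b}

/-- `τ(ℤ_n, h)`: the largest size of `A ⊆ ℤ_n` with `0 ∉ h^± A`. -/
noncomputable def tau (n h : ℕ) : ℕ :=
  sSup {m | ∃ A : Finset (ZMod n), (0 : ZMod n) ∉ rsigned h A ∧ A.card = m}

theorem good_iff {n : ℕ} {A : Finset (ZMod n)} : (0 : ZMod n) ∉ rsigned 3 A ↔ Good A := by
  classical
  constructor
  · intro h a ha b hb c hc hab hac hbc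
    have key : ∀ e1 e2 e3 : ℤ, (e1 = 1 ∨ e1 = -1) → (e2 = 1 ∨ e2 = -1) → (e3 = 1 ∨ e3 = -1) →
        (e1 : ZMod n) * a + e2 * b + e3 * c ≠ 0 := by
      intro e1 e2 e3 h1 h2 h3 h0
      apply h
      refine ⟨{a, b, c}, ?_, ?_, fun z => if z = a then e1 else if z = b then e2 else e3, ?_, ?_⟩
      · intro z hz
        rw [mem_insert, mem_insert, mem_singleton] at hz
        rcases hz with rfl | rfl | rfl <;> assumption
      · rw [card_eq_three]; exact ⟨a, b, c, hab, hac, hbc, rfl⟩
      · intro z _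
        dsimp only
        split_ifs <;> assumption
      · rw [sum_insert (by simp [hab, hac]), sum_insert (by simp [hbc]), sum_singleton]
        dsimp only
        rw [if_pos rfl, if_neg (Ne.symm hab), if_pos rfl, if_neg (Ne.symm hac),
          if_neg (Ne.symm hbc)]
        simp only [zsmul_eq_mul]
        rw [← h0]; ring
    constructor
    · intro h0
      exact key 1 1 1 (Or.inl rfl) (Or.inl rfl) (Or.inl rfl) (by push_cast; linear_combination h0)
    · intro h0
      exact key 1 1 (-1) (Or.inl rfl) (Or.inl rfl) (Or.inr rfl)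
        (by push_cast; linear_combination h0)
  · rintro hG ⟨B, hBA, hB, ε, hε, h0⟩
    rw [card_eq_three] at hB
    obtain ⟨a, b, c, hab, hac, hbc, rfl⟩ := hB
    rw [sum_insert (by simp [hab, hac]), sum_insert (by simp [hbc]), sum_singleton] at h0
    have ha := hBA (show a ∈ ({a, b, c} : Finset (ZMod n)) by simp)
    have hb := hBA (show b ∈ ({a, b, c} : Finset (ZMod n)) by simp)
    have hc := hBA (show c ∈ ({a, b, c} : Finset (ZMod n)) by simp)
    have g1 := hG a ha b hb c hc hab hac hbc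
    have g2 := hG a ha c hc b hb hac hab (Ne.symm hbc)
    have g3 := hG b hb c hc a ha hbc (Ne.symm hab) (Ne.symm hac)
    rcases hε a (by simp) with e1 | e1 <;> rcases hε b (by simp) with e2 | e2 <;>
      rcases hε c (by simp) with e3 | e3 <;> rw [e1, e2, e3] at h0 <;>
      simp only [one_smul, neg_smul] at h0
    · exact g1.1 (by linear_combination -h0)
    · exact g1.2 (by linear_combination -h0)
    · exact g2.2 (by linear_combination -h0)
    · exact g3.2 (by linear_combination h0)
    · exact g3.2 (by linear_combination -h0)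
    · exact g2.2 (by linear_combination h0)
    · exact g1.2 (by linear_combination h0)
    · exact g1.1 (by linear_combination h0)

theorem tau_eq {n m : ℕ} (h1 : ∀ A : Finset (ZMod n), Good A → A.card ≤ m)
    (h2 : ∃ A : Finset (ZMod n), Good A ∧ A.card = m) : tau n 3 = m := by
  have hset : {m | ∃ A : Finset (ZMod n), (0 : ZMod n) ∉ rsigned 3 A ∧ A.card = m} =
      {m | ∃ A : Finset (ZMod n), Good A ∧ A.card = m} := by
    ext k
    simp only [Set.mem_ofPred_eq, good_iff]
  unfold tau
  rw [hset]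
  apply le_antisymm
  · apply csSup_le
    · obtain ⟨A, hA, hc⟩ := h2
      exact ⟨m, A, hA, hc⟩
    · rintro k ⟨A, hA, rfl⟩
      exact h1 A hA
  · apply le_csSup
    · refine ⟨m, ?_⟩
      rintro k ⟨A, hA, rfl⟩
      exact h1 A hA
    · exact h2

theorem good2 : Good (univ : Finset (ZMod 2)) ∧ (univ : Finset (ZMod 2)).card = 2 := by decide

theorem le2 : ∀ A : Finset (ZMod 2), Good A → A.card ≤ 2 := by decide

theorem good3 : Good ({0, 1} : Finset (ZMod 3)) ∧ ({0, 1} : Finset (ZMod 3)).card = 2 := by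
  decide

theorem le3 : ∀ A : Finset (ZMod 3), Good A → A.card ≤ 2 := by decide +kernel

theorem good5 : Good ({0, 1, 2} : Finset (ZMod 5)) ∧ ({0, 1, 2} : Finset (ZMod 5)).card = 3 := by
  decide

theorem le5 : ∀ A : Finset (ZMod 5), Good A → A.card ≤ 3 := by decide +kernel

/-- **Theorem.** For a prime `p`, `τ(ℤ_p, 3)` equals `2` if `p = 2`, `3` if `p = 5`, and
`⌊p / 3⌋ + 1` otherwise. -/
theorem result (p : ℕ) (hp : p.Prime) :
    tau p 3 = if p = 2 then 2 else if p = 5 then 3 else p / 3 + 1 := by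
  haveI : Fact p.Prime := ⟨hp⟩
  by_cases h2 : p = 2
  · subst h2
    rw [if_pos rfl]
    exact tau_eq le2 ⟨_, good2⟩
  by_cases h5 : p = 5
  · subst h5
    rw [if_neg (by norm_num), if_pos rfl]
    exact tau_eq le5 ⟨_, good5⟩
  rw [if_neg h2, if_neg h5]
  by_cases h3 : p = 3
  · subst h3
    exact tau_eq le3 ⟨_, good3⟩
  have h7 : 7 ≤ p := by
    have := hp.two_le
    by_contra hcon
    push Not at hcon
    have h46 : p = 4 ∨ p = 6 := by omega
    rcases h46 with rfl | rfl
    · exact absurd hp (by norm_num)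
    · exact absurd hp (by norm_num)
  refine tau_eq (fun A hA => hA.card_le h7) ?_
  have hmod : p % 3 = 1 ∨ p % 3 = 2 := by
    have : p % 3 ≠ 0 := by
      intro h
      have := (Nat.prime_dvd_prime_iff_eq Nat.prime_three hp).1 (Nat.dvd_of_mod_eq_zero h)
      exact h3 this.symm
    omega
  rcases hmod with h | h
  · obtain ⟨A, hA, hc⟩ := exists_good_one (p := p) (p / 3) (by omega) (by omega)
    exact ⟨A, hA, hc⟩
  · obtain ⟨A, hA, hc⟩ := exists_good_two (p := p) (p / 3) (by omega)
    exact ⟨A, hA, hc⟩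

end Pool.Agent.Results.MP_6ea067_co.TauThree
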